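import Mathlib

/-!
The sums attached to Ramanujan's series with `260 k + 23`.
-/

set_option autoImplicit false

namespace Pool.Agent.Work.Ram260

open Nat

/-- `M k = (4 k)! / (k!)^4` -/
def M (k : ℕ) : ℕ := (4 * k)! / (k !) ^ 4

/-- `S n = ∑_{k < n} (260 k + 23) M_k N^(n-1-k)` with `N = -82944` -/
def S (n : ℕ) : ℤ :=
  ∑ k ∈ Finset.range n, (260 * (k : ℤ) + 23) * (M k : ℤ) * (-82944) ^ (n - 1 - k)

/-- `a n = S n / (2 n (2 n + 1) binom (2 n) n)` -/
def a (n : ℕ) : ℚ := (S n : ℚ) / (2 * n * (2 * n + 1) * ((2 * n).choose n : ℚ))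

end Pool.Agent.Work.Ram260
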