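import Pool.Agent.Work.MP_14f078_nt_h99.Three

set_option autoImplicit false

namespace Pool.Agent.Work.Ram260

open Nat

theorem term_dvd (k j : ℕ) (hj : 1 ≤ j) :
    (3 : ℤ) ^ padicValNat 3 (D (k + j + 1)) ∣
      (260 * (k : ℤ) + 23) * (M k : ℤ) * (-82944) ^ j := by
  have h1 := three_le k j hj
  have h2 : (3 : ℤ) ^ padicValNat 3 (M k) ∣ (M k : ℤ) := by
    exact_mod_cast (pow_padicValNat_dvd (p := 3) (n := M k))
  have h3 : (3 : ℤ) ^ (4 * j) ∣ (-82944) ^ j := by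
    rw [pow_mul]
    exact pow_dvd_pow_of_dvd ⟨-1024, by norm_num⟩ j
  refine (pow_dvd_pow _ h1).trans ?_
  rw [pow_add]
  exact mul_dvd_mul (h2.mul_left _) h3

theorem S_split (k : ℕ) : ∃ T : ℤ, (3 : ℤ) ^ padicValNat 3 (D (k + 1)) ∣ T ∧
    S (k + 1) = T + (260 * (k : ℤ) + 23) * (M k : ℤ) := by
  refine ⟨∑ i ∈ Finset.range k, (260 * (i : ℤ) + 23) * (M i : ℤ) * (-82944) ^ (k + 1 - 1 - i),
    Finset.dvd_sum (fun i hi => ?_), ?_⟩
  · have hi' := Finset.mem_range.1 hi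
    obtain ⟨j, rfl⟩ : ∃ j, k = i + (j + 1) := ⟨k - i - 1, by omega⟩
    have e : i + (j + 1) + 1 - 1 - i = j + 1 := by omega
    rw [e]
    exact term_dvd i (j + 1) (by omega)
  · rw [S, Finset.sum_range_succ]
    congr 1
    have e : k + 1 - 1 - k = 0 := by omega
    rw [e, pow_zero, mul_one]

theorem a_eq (n : ℕ) : a n = (S n : ℚ) / (D n : ℚ) := by
  rw [a, D, centralBinom]
  push_cast
  rfl

/-- denominators of quotients -/
theorem den_of {p : ℕ} [hp : Fact p.Prime] {x : ℤ} {d : ℕ} (hd : d ≠ 0)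
    (h : (p : ℤ) ^ padicValNat p d ∣ x) : ¬ p ∣ ((x : ℚ) / (d : ℚ)).den := by
  obtain ⟨y, hy⟩ := h
  obtain ⟨d', hd'⟩ := pow_padicValNat_dvd (p := p) (n := d)
  have hp0 : (p : ℚ) ≠ 0 := by exact_mod_cast hp.out.ne_zero
  have hd'0 : d' ≠ 0 := by rintro rfl; rw [mul_zero] at hd'; exact hd hd'
  have hnd : ¬ p ∣ d' := by
    intro hcon
    have h1 : p ^ (padicValNat p d + 1) ∣ d := by
      rw [pow_succ]
      conv_rhs => rw [hd']
      exact mul_dvd_mul_left _ hcon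
    have := (padicValNat_dvd_iff_le hd).1 h1
    omega
  have e : ((x : ℚ) / (d : ℚ)) = (y : ℚ) / (d' : ℚ) := by
    have hx : (x : ℚ) = (p : ℚ) ^ padicValNat p d * y := by rw [hy]; push_cast; ring
    have hdd : (d : ℚ) = (p : ℚ) ^ padicValNat p d * d' := by
      conv_lhs => rw [hd']
      push_cast; ring
    have hpk : (p : ℚ) ^ padicValNat p d ≠ 0 := pow_ne_zero _ hp0
    rw [hx, hdd, mul_div_mul_left _ _ hpk]
  rw [e]
  intro hcon
  apply hnd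
  have h2 : (((y : ℚ) / (d' : ℚ)).den : ℤ) ∣ (d' : ℤ) := by
    have := Rat.den_dvd y (d' : ℤ)
    rwa [Rat.divInt_eq_div] at this
  have h3 : ((y : ℚ) / (d' : ℚ)).den ∣ d' := by exact_mod_cast h2
  exact hcon.trans h3

theorem main_two (n : ℕ) (hn : 2 ≤ n) : ¬ 2 ∣ (a n).den := by
  rw [a_eq]
  exact den_of (p := 2) (D_pos (by omega)).ne' (by exact_mod_cast two_dvd hn)

theorem main_three (n : ℕ) (hn : 2 ≤ n) (h : ¬ ∃ r, 2 * n + 1 = 3 ^ r) : ¬ 3 ∣ (a n).den := by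
  rw [a_eq]
  refine den_of (p := 3) (D_pos (by omega)).ne' ?_
  obtain ⟨k, rfl⟩ : ∃ k, n = k + 1 := ⟨n - 1, by omega⟩
  obtain ⟨T, hT, hS⟩ := S_split k
  rw [hS]
  have h1 := three_last k (by omega) h
  have h2 : (3 : ℤ) ^ padicValNat 3 (M k) ∣ (M k : ℤ) := by
    exact_mod_cast (pow_padicValNat_dvd (p := 3) (n := M k))
  exact dvd_add hT (((pow_dvd_pow _ h1).trans h2).mul_left _)

theorem main_exc (n : ℕ) (hn : 2 ≤ n) (h : ∃ r, 2 * n + 1 = 3 ^ r) :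
    ¬ 3 ∣ (3 * a n).den ∧ ¬ (3 : ℤ) ∣ (3 * a n).num := by
  obtain ⟨r, hr⟩ := h
  obtain ⟨k, rfl⟩ : ∃ k, n = k + 1 := ⟨n - 1, by omega⟩
  have hk : 1 ≤ k := by omega
  obtain ⟨T, hT, hS⟩ := S_split k
  have h1 := three_exc k r hk hr
  have hr2 : 2 ≤ r := by
    by_contra h
    have : r = 0 ∨ r = 1 := by omega
    rcases this with rfl | rfl
    · norm_num at hr
    · norm_num at hr; omega
  have hk3 : k % 3 = 0 := by
    obtain ⟨s, rfl⟩ : ∃ s, r = s + 2 := ⟨r - 2, by omega⟩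
    have : 3 ^ (s + 2) = 9 * 3 ^ s := by rw [pow_add]; ring
    omega
  have hD0 : D (k + 1) ≠ 0 := (D_pos (by omega)).ne'
  set v := padicValNat 3 (M k) with hv
  obtain ⟨m', hm'⟩ : 3 ^ v ∣ M k := pow_padicValNat_dvd (p := 3) (n := M k)
  have hm3 : ¬ 3 ∣ m' := by
    intro hcon
    have h1 : 3 ^ (v + 1) ∣ M k := by
      rw [pow_succ, hm']
      exact mul_dvd_mul_left _ hcon
    have := (padicValNat_dvd_iff_le (p := 3) (M_pos k).ne').1 h1
    omega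
  obtain ⟨d', hd'⟩ : 3 ^ (v + 1) ∣ D (k + 1) := by
    rw [← h1]; exact pow_padicValNat_dvd
  have hd3 : ¬ 3 ∣ d' := by
    intro hcon
    have h2 : 3 ^ (v + 1 + 1) ∣ D (k + 1) := by
      rw [pow_succ 3 (v + 1), hd']
      exact mul_dvd_mul_left _ hcon
    have := (padicValNat_dvd_iff_le (p := 3) hD0).1 h2
    omega
  rw [h1] at hT
  obtain ⟨t, ht⟩ := hT
  have hS' : S (k + 1) = 3 ^ v * (3 * t + (260 * (k : ℤ) + 23) * m') := by
    rw [hS, ht, hm']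
    push_cast
    ring
  set w : ℤ := 3 * t + (260 * (k : ℤ) + 23) * m' with hw
  have hw3 : ¬ (3 : ℤ) ∣ w := by
    intro hcon
    have h2 : (3 : ℤ) ∣ (260 * (k : ℤ) + 23) * m' := by
      have := dvd_sub hcon (Dvd.intro t rfl : (3 : ℤ) ∣ 3 * t)
      rwa [hw, add_sub_cancel_left] at this
    rcases (Int.prime_three.dvd_or_dvd h2) with h3 | h3
    · omega
    · exact hm3 (by exact_mod_cast h3)
  have hd'0 : d' ≠ 0 := by rintro rfl; exact hd3 (dvd_zero 3)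
  have e : 3 * a (k + 1) = (w : ℚ) / (d' : ℚ) := by
    rw [a_eq, hS', hd']
    have : (d' : ℚ) ≠ 0 := by exact_mod_cast hd'0
    push_cast
    field_simp
    ring
  have h5 : (3 * a (k + 1)).num * (d' : ℤ) = w * ((3 * a (k + 1)).den : ℤ) := by
    have h6 : ((3 * a (k + 1)).num : ℚ) / ((3 * a (k + 1)).den : ℚ) = (w : ℚ) / (d' : ℚ) := by
      rw [Rat.num_div_den, e]
    have h7 : ((3 * a (k + 1)).den : ℚ) ≠ 0 := by exact_mod_cast (3 * a (k + 1)).den_ne_zero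
    have h8 : (d' : ℚ) ≠ 0 := by exact_mod_cast hd'0
    rw [div_eq_div_iff h7 h8] at h6
    exact_mod_cast h6
  have h9 : ¬ 3 ∣ (3 * a (k + 1)).den := by
    intro hcon
    have h2 : (((w : ℚ) / (d' : ℚ)).den : ℤ) ∣ (d' : ℤ) := by
      have := Rat.den_dvd w (d' : ℤ)
      rwa [Rat.divInt_eq_div] at this
    rw [← e] at h2
    exact hd3 (hcon.trans (by exact_mod_cast h2))
  refine ⟨h9, fun hcon => ?_⟩
  have h10 : (3 : ℤ) ∣ w * ((3 * a (k + 1)).den : ℤ) := by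
    rw [← h5]; exact hcon.mul_right _
  rcases (Int.prime_three.dvd_or_dvd h10) with h3 | h3
  · exact hw3 h3
  · exact h9 (by exact_mod_cast h3)

end Pool.Agent.Work.Ram260
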