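import Pool.Agent.Work.MP_14f078_nt_h99.Two

set_option autoImplicit false

namespace Pool.Agent.Work.Ram260

open Nat

/-- basic bound at one level -/
theorem lev0 (m k j : ℕ) (hm : 3 ≤ m) :
    (2 * (k + j + 1) + 1) / m + 4 * (k / m) ≤
      4 * k / m + (k + j + 1) / m + (k + j) / m + 1 := by
  have hm0 : 0 < m := by omega
  have h1 : 4 * (k / m) ≤ 4 * k / m := by
    rw [Nat.le_div_iff_mul_le hm0]
    have := Nat.div_mul_le_self k m
    nlinarith
  have h2 : (2 * (k + j + 1) + 1) / m ≤ (k + j + 1) / m + (k + j) / m + 1 := by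
    obtain ⟨F, b, hb, hF⟩ : ∃ F b, b < m ∧ k + j = F * m + b :=
      ⟨(k + j) / m, (k + j) % m, Nat.mod_lt _ hm0, (Nat.div_add_mod' _ _).symm⟩
    have e1 : (k + j) / m = F := by
      rw [hF, add_comm, Nat.add_mul_div_right _ _ hm0, Nat.div_eq_of_lt hb, zero_add]
    rw [e1]
    rcases Nat.lt_or_ge (b + 1) m with hb1 | hb1
    · have e2 : (k + j + 1) / m = F := by
        rw [hF, add_assoc, add_comm, Nat.add_mul_div_right _ _ hm0, Nat.div_eq_of_lt hb1, zero_add]
      rw [e2]
      have : (2 * (k + j + 1) + 1) / m < F + F + 1 + 1 := by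
        rw [Nat.div_lt_iff_lt_mul hm0, hF]
        nlinarith
      omega
    · have hbm : b + 1 = m := by omega
      have e2 : (k + j + 1) / m = F + 1 := by
        rw [hF, add_assoc, hbm, ← Nat.succ_mul]
        exact Nat.mul_div_cancel _ hm0
      rw [e2]
      have : (2 * (k + j + 1) + 1) / m < F + 1 + F + 1 + 1 := by
        rw [Nat.div_lt_iff_lt_mul hm0, hF]
        nlinarith
      omega
  omega

/-- no loss at a high level -/
theorem lev1 (m k j : ℕ) (hm : 4 * j + 6 < m) :
    (2 * (k + j + 1) + 1) / m + 4 * (k / m) ≤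
      4 * k / m + (k + j + 1) / m + (k + j) / m := by
  have hm0 : 0 < m := by omega
  by_contra hcon
  push Not at hcon
  have h0 := lev0 m k j (by omega)
  obtain ⟨q, r, hr, hk⟩ : ∃ q r, r < m ∧ k = q * m + r :=
    ⟨k / m, k % m, Nat.mod_lt _ hm0, (Nat.div_add_mod' _ _).symm⟩
  have e1 : k / m = q := by
    rw [hk, add_comm, Nat.add_mul_div_right _ _ hm0, Nat.div_eq_of_lt hr, zero_add]
  have h2 : (2 * (k + j + 1) + 1) / m ≤ (k + j + 1) / m + (k + j) / m + 1 := by
    have := lev0 m 0 (k + j) (by omega)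
    simpa using this
  have h1 : 4 * q ≤ 4 * k / m := by
    rw [Nat.le_div_iff_mul_le hm0, hk]; nlinarith
  have h3 : 4 * k / m = 4 * q := by
    rw [e1] at hcon
    omega
  have h4 : 4 * r < m := by
    by_contra h
    push Not at h
    have : 4 * q + 1 ≤ 4 * k / m := by
      rw [Nat.le_div_iff_mul_le hm0, hk]; nlinarith
    omega
  have e2 : (k + j) / m = q := by
    rw [hk, add_assoc, add_comm, Nat.add_mul_div_right _ _ hm0,
      Nat.div_eq_of_lt (by omega), zero_add]
  have e3 : (k + j + 1) / m = q := by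
    rw [hk, add_assoc, add_assoc, add_comm, Nat.add_mul_div_right _ _ hm0,
      Nat.div_eq_of_lt (by omega), zero_add]
  have e4 : (2 * (k + j + 1) + 1) / m = 2 * q := by
    have : 2 * (k + j + 1) + 1 = (2 * (r + j) + 3) + 2 * q * m := by rw [hk]; ring
    rw [this, Nat.add_mul_div_right _ _ hm0, Nat.div_eq_of_lt (by omega), zero_add]
  rw [e1, e2, e3, e4] at hcon
  omega

/-- the case `j = 0` at levels at least `9` -/
theorem lev2 (m k : ℕ) (hm : 6 < m) :
    (2 * (k + 1) + 1) / m + 4 * (k / m) ≤ 4 * k / m + (k + 1) / m + k / m := by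
  simpa using lev1 m k 0 (by omega)

theorem log_lt (x : ℕ) : log 3 x < x + 1 :=
  lt_succ_of_le (Nat.log_le_self 3 x)

/-- the valuation of `M` in terms of floor functions -/
theorem val3_M (k b : ℕ) (hb : 4 * k < b) :
    padicValNat 3 (M k) + ∑ i ∈ Finset.Ico 1 b, 4 * (k / 3 ^ i) =
      ∑ i ∈ Finset.Ico 1 b, 4 * k / 3 ^ i := by
  have h := congrArg (padicValNat 3) (M_fac k)
  rw [padicValNat.mul (M_pos k).ne' (by positivity), padicValNat.pow,
    padicValNat_factorial (p := 3) (b := b) (lt_of_le_of_lt (Nat.log_le_self 3 _) (by omega)),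
    padicValNat_factorial (p := 3) (b := b) (lt_of_le_of_lt (Nat.log_le_self 3 _) (by omega))] at h
  rw [← Finset.mul_sum]
  exact h

theorem val3_D (s b : ℕ) (hb : 2 * (s + 1) + 1 < b) :
    padicValNat 3 (D (s + 1)) + (∑ i ∈ Finset.Ico 1 b, (s + 1) / 3 ^ i) +
      (∑ i ∈ Finset.Ico 1 b, s / 3 ^ i) =
      ∑ i ∈ Finset.Ico 1 b, (2 * (s + 1) + 1) / 3 ^ i := by
  have h0 : D (s + 1) * ((s + 1)! * s !) = 2 * (2 * (s + 1) + 1)! := by
    have h1 : centralBinom (s + 1) * ((s + 1)! * (s + 1)!) = (2 * (s + 1))! := by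
      have := Nat.add_choose_mul_factorial_mul_factorial (s + 1) (s + 1)
      rw [centralBinom, two_mul]
      rw [← this]; ring
    rw [Nat.factorial_succ (2 * (s + 1)), ← h1, Nat.factorial_succ s, D]
    ring
  have h := congrArg (padicValNat 3) h0
  rw [padicValNat.mul (D_pos (by omega)).ne' (by positivity),
    padicValNat.mul (by positivity) (by positivity),
    padicValNat.mul (by norm_num) (by positivity),
    padicValNat_factorial (p := 3) (b := b) (lt_of_le_of_lt (Nat.log_le_self 3 _) (by omega)),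
    padicValNat_factorial (p := 3) (b := b) (lt_of_le_of_lt (Nat.log_le_self 3 _) (by omega)),
    padicValNat_factorial (p := 3) (b := b) (lt_of_le_of_lt (Nat.log_le_self 3 _) (by omega)),
    padicValNat.eq_zero_of_not_dvd (by norm_num : ¬ 3 ∣ 2)] at h
  omega

/-- the basic comparison: levelwise inequalities give valuations -/
theorem compare (k j : ℕ) (δ : ℕ → ℕ) (b B : ℕ) (hb : 4 * (k + j + 1) + 1 < b)
    (h : ∀ i ∈ Finset.Ico 1 b, (2 * (k + j + 1) + 1) / 3 ^ i + 4 * (k / 3 ^ i) ≤
      4 * k / 3 ^ i + (k + j + 1) / 3 ^ i + (k + j) / 3 ^ i + δ i)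
    (hδ : ∑ i ∈ Finset.Ico 1 b, δ i ≤ B) :
    padicValNat 3 (D (k + j + 1)) ≤ padicValNat 3 (M k) + B := by
  have h1 := val3_M k b (by omega)
  have h2 := val3_D (k + j) b (by omega)
  have h3 := Finset.sum_le_sum h
  simp only [Finset.sum_add_distrib] at h3
  omega

/-- all terms except the last -/
theorem three_le (k j : ℕ) (hj : 1 ≤ j) :
    padicValNat 3 (D (k + j + 1)) ≤ padicValNat 3 (M k) + 4 * j := by
  refine compare k j (fun i => if 3 ^ i ≤ 4 * j + 6 then 1 else 0) (4 * (k + j + 1) + 2) (4 * j)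
    (by omega) ?_ ?_
  · intro i hi
    have hi1 := (Finset.mem_Ico.1 hi).1
    have h3 : 3 ≤ 3 ^ i := by
      calc 3 = 3 ^ 1 := by norm_num
        _ ≤ 3 ^ i := Nat.pow_le_pow_right (by norm_num) hi1
    split_ifs with h
    · exact lev0 _ k j h3
    · exact lev1 _ k j (by omega)
  · rw [← Finset.sum_filter, Finset.sum_const, smul_eq_mul, mul_one]
    calc ((Finset.Ico 1 (4 * (k + j + 1) + 2)).filter (fun i => 3 ^ i ≤ 4 * j + 6)).card
        ≤ (Finset.Ico 1 (4 * j + 1)).card := by
          refine Finset.card_le_card (fun i hi => ?_)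
          obtain ⟨h1, h2⟩ := Finset.mem_filter.1 hi
          rw [Finset.mem_Ico] at h1 ⊢
          refine ⟨h1.1, ?_⟩
          by_contra hcon
          push Not at hcon
          have h4 : 3 ^ (4 * j + 1) ≤ 3 ^ i := Nat.pow_le_pow_right (by norm_num) hcon
          have h5 : 4 * j + 6 < 3 ^ (4 * j + 1) := by
            clear h4 hcon h2 h1 hi
            induction j with
            | zero => omega
            | succ j ih =>
              rcases Nat.eq_zero_or_pos j with rfl | hj'
              · norm_num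
              · have := ih hj'
                have e : 4 * (j + 1) + 1 = (4 * j + 1) + 4 := by ring
                rw [e, pow_add]
                omega
          omega
      _ = 4 * j := by rw [Nat.card_Ico]; omega

/-- the last term, not a power of three -/
theorem three_last (k : ℕ) (hk : 1 ≤ k) (hp : ¬ ∃ r, 2 * (k + 1) + 1 = 3 ^ r) :
    padicValNat 3 (D (k + 1)) ≤ padicValNat 3 (M k) := by
  have h1 := val3_M k (4 * (k + 1) + 2) (by omega)
  have h2 := val3_D k (4 * (k + 1) + 2) (by omega)
  -- the top level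
  obtain ⟨t, ht1, ht2⟩ : ∃ t, 3 ^ t ≤ k ∧ k < 3 ^ (t + 1) :=
    ⟨log 3 k, Nat.pow_log_le_self 3 (by omega), Nat.lt_pow_succ_log_self (by norm_num) k⟩
  by_cases hmod : k % 3 = 0
  · -- loss at level one, gain at level `t + 1`
    have htpos : 1 ≤ t := by
      by_contra h
      have : t = 0 := by omega
      subst this
      norm_num at ht2
      omega
    have htk : t < k := by
      calc t < 3 ^ t := Nat.lt_pow_self (by norm_num)
        _ ≤ k := ht1
    have hlev : ∀ i ∈ Finset.Ico 1 (4 * (k + 1) + 2),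
        (2 * (k + 1) + 1) / 3 ^ i + 4 * (k / 3 ^ i) + (if i = t + 1 then 1 else 0) ≤
        4 * k / 3 ^ i + (k + 1) / 3 ^ i + k / 3 ^ i + (if i = 1 then 1 else 0) := by
      intro i hi
      have hi1 := (Finset.mem_Ico.1 hi).1
      by_cases hi1' : i = 1
      · subst hi1'
        have : ¬ (1 = t + 1) := by omega
        rw [if_neg this, if_pos rfl]
        simpa using lev0 3 k 0 (by norm_num)
      · have h9 : 9 ≤ 3 ^ i := by
          calc 9 = 3 ^ 2 := by norm_num
            _ ≤ 3 ^ i := Nat.pow_le_pow_right (by norm_num) (by omega)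
        rw [if_neg hi1']
        by_cases hit : i = t + 1
        · subst hit
          rw [if_pos rfl]
          obtain ⟨u, hu⟩ : ∃ u, 3 ^ (t + 1) = 3 * u := ⟨3 ^ t, by rw [pow_succ]; ring⟩
          have hodd : 3 ^ (t + 1) % 2 = 1 := by
            have : Odd (3 ^ (t + 1)) := Odd.pow (by decide)
            exact Nat.odd_iff.1 this
          have hne : 2 * (k + 1) + 1 ≠ 3 ^ (t + 1) := fun h => hp ⟨_, h⟩
          have hu' : u = 3 ^ t := by
            have : 3 * u = 3 * 3 ^ t := by rw [← hu, pow_succ]; ring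
            omega
          rw [← hu'] at ht1
          have ek : k / 3 ^ (t + 1) = 0 := Nat.div_eq_of_lt ht2
          rw [ek]
          rcases Nat.lt_or_ge (2 * (k + 1) + 1) (3 ^ (t + 1)) with h | h
          · rw [Nat.div_eq_of_lt h]
            have : 1 ≤ 4 * k / 3 ^ (t + 1) := by
              rw [Nat.le_div_iff_mul_le (by positivity)]
              omega
            have h00 := Nat.zero_le ((k + 1) / 3 ^ (t + 1))
            linarith only [this, h00]
          · have hlt : (2 * (k + 1) + 1) / 3 ^ (t + 1) < 2 := by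
              rw [Nat.div_lt_iff_lt_mul (by positivity)]
              omega
            have : 2 ≤ 4 * k / 3 ^ (t + 1) := by
              rw [Nat.le_div_iff_mul_le (by positivity)]
              omega
            have h00 := Nat.zero_le ((k + 1) / 3 ^ (t + 1))
            have hlt' := Nat.lt_succ_iff.1 hlt
            linarith only [this, h00, hlt']
        · rw [if_neg hit]
          have := lev2 (3 ^ i) k (by omega)
          omega
    have h3 := Finset.sum_le_sum hlev
    simp only [Finset.sum_add_distrib, Finset.sum_ite_eq', Finset.mem_Ico] at h3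
    rw [if_pos ⟨by omega, by omega⟩, if_pos ⟨le_rfl, by omega⟩] at h3
    omega
  · refine compare k 0 (fun _ => 0) (4 * (k + 1) + 2) 0 (by omega) ?_ (by simp)
    intro i hi
    have hi1 := (Finset.mem_Ico.1 hi).1
    by_cases hi1' : i = 1
    · subst hi1'
      simp only [pow_one, add_zero]
      obtain ⟨q, hq⟩ : ∃ q, k = 3 * q + 1 ∨ k = 3 * q + 2 := ⟨k / 3, by omega⟩
      rcases hq with hq | hq <;> (rw [hq]; omega)
    · have h9 : 9 ≤ 3 ^ i := by
        calc 9 = 3 ^ 2 := by norm_num
          _ ≤ 3 ^ i := Nat.pow_le_pow_right (by norm_num) (by omega)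
      have := lev2 (3 ^ i) k (by omega)
      simpa using this

/-- the last term in the exceptional case -/
theorem three_exc (k r : ℕ) (hk : 1 ≤ k) (hr : 2 * (k + 1) + 1 = 3 ^ r) :
    padicValNat 3 (D (k + 1)) = padicValNat 3 (M k) + 1 := by
  have h1 := val3_M k (4 * (k + 1) + 2) (by omega)
  have h2 := val3_D k (4 * (k + 1) + 2) (by omega)
  have hr2 : 2 ≤ r := by
    by_contra h
    have : r = 0 ∨ r = 1 := by omega
    rcases this with rfl | rfl
    · norm_num at hr
    · norm_num at hr; omega
  have hlev : ∀ i ∈ Finset.Ico 1 (4 * (k + 1) + 2),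
      (2 * (k + 1) + 1) / 3 ^ i + 4 * (k / 3 ^ i) =
      4 * k / 3 ^ i + (k + 1) / 3 ^ i + k / 3 ^ i + (if i = 1 then 1 else 0) := by
    intro i hi
    have hi1 := (Finset.mem_Ico.1 hi).1
    rcases Nat.lt_or_ge r i with hri | hri
    · have h3 : 3 ^ r * 3 ≤ 3 ^ i := by
        rw [← pow_succ]; exact Nat.pow_le_pow_right (by norm_num) hri
      rw [if_neg (by omega), Nat.div_eq_of_lt (by omega), Nat.div_eq_of_lt (by omega),
        Nat.div_eq_of_lt (by omega), Nat.div_eq_of_lt (by omega)]
    · obtain ⟨d, rfl⟩ := Nat.exists_eq_add_of_le hri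
      -- `3 ^ d = 2 x + 1`, `3 ^ i = 2 y + 1`
      obtain ⟨x, hx⟩ : ∃ x, 3 ^ d = 2 * x + 1 := (Odd.pow (by decide) : Odd (3 ^ d))
      obtain ⟨y, hy⟩ : ∃ y, 3 ^ i = 2 * y + 1 := (Odd.pow (by decide) : Odd (3 ^ i))
      have hy1 : 1 ≤ y := by
        have : 3 ≤ 3 ^ i := by
          calc 3 = 3 ^ 1 := by norm_num
            _ ≤ 3 ^ i := Nat.pow_le_pow_right (by norm_num) hi1
        omega
      have e1 : 2 * (k + 1) + 1 = (2 * x + 1) * (2 * y + 1) := by
        rw [hr, pow_add, hx, hy]; ring
      have hk' : k + 1 = x * (2 * y + 1) + y := by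
        have : 2 * (k + 1) + 1 = 2 * (x * (2 * y + 1) + y) + 1 := by rw [e1]; ring
        omega
      have hk0 : k = (y - 1) + x * (2 * y + 1) := by omega
      rw [hy, e1, Nat.mul_div_cancel _ (by omega : 0 < 2 * y + 1)]
      have q1 : k / (2 * y + 1) = x := by
        rw [hk0, Nat.add_mul_div_right _ _ (by omega), Nat.div_eq_of_lt (by omega), zero_add]
      have q2 : (k + 1) / (2 * y + 1) = x := by
        rw [hk', add_comm, Nat.add_mul_div_right _ _ (by omega), Nat.div_eq_of_lt (by omega),
          zero_add]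
      rw [q1, q2]
      by_cases hi' : i = 1
      · subst hi'
        have : y = 1 := by omega
        subst this
        have q3 : 4 * k / (2 * 1 + 1) = 4 * x := by
          rw [hk0]
          have : 4 * (1 - 1 + x * (2 * 1 + 1)) = 4 * x * 3 := by ring
          rw [this]
          exact Nat.mul_div_cancel _ (by norm_num)
        rw [q3, if_pos rfl]
        omega
      · have h9 : 9 ≤ 3 ^ i := by
          calc 9 = 3 ^ 2 := by norm_num
            _ ≤ 3 ^ i := Nat.pow_le_pow_right (by norm_num) (by omega)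
        rw [if_neg hi']
        have q3 : 4 * k / (2 * y + 1) = 4 * x + 1 := by
          have : 4 * k = (4 * (y - 1) - (2 * y + 1)) + (4 * x + 1) * (2 * y + 1) := by
            have h5 : 4 * k = 4 * (y - 1) + 4 * x * (2 * y + 1) := by
              conv_lhs => rw [hk0]
              ring
            rw [h5, add_mul, one_mul]
            omega
          rw [this, Nat.add_mul_div_right _ _ (by omega), Nat.div_eq_of_lt (by omega), zero_add]
        rw [q3]
        omega
  have h3 := Finset.sum_congr rfl hlev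
  simp only [Finset.sum_add_distrib, Finset.sum_ite_eq', Finset.mem_Ico] at h3
  rw [if_pos ⟨le_rfl, by omega⟩] at h3
  omega

end Pool.Agent.Work.Ram260
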