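import Pool.Agent.Work.MP_14f078_nt_h99.Defs

set_option autoImplicit false

namespace Pool.Agent.Work.Ram260

open Nat

theorem M_eq (k : ℕ) : M k = centralBinom (2 * k) * centralBinom k ^ 2 := by
  have h1 : centralBinom k * (k ! * k !) = (2 * k)! := by
    have := Nat.add_choose_mul_factorial_mul_factorial k k
    rw [centralBinom, two_mul]
    rw [← this]; ring
  have h2 : centralBinom (2 * k) * ((2 * k)! * (2 * k)!) = (4 * k)! := by
    have := Nat.add_choose_mul_factorial_mul_factorial (2 * k) (2 * k)
    have e : 2 * k + 2 * k = 4 * k := by ring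
    rw [centralBinom, two_mul (2 * k)]
    rw [e] at this ⊢
    rw [← this]; ring
  rw [M]
  refine Nat.div_eq_of_eq_mul_left (by positivity) ?_
  rw [← h2, ← h1]
  ring

theorem M_pos (k : ℕ) : 0 < M k := by
  rw [M_eq]
  have := centralBinom_pos (2 * k)
  have := centralBinom_pos k
  positivity

theorem M_fac (k : ℕ) : M k * (k !) ^ 4 = (4 * k)! := by
  have h1 : centralBinom k * (k ! * k !) = (2 * k)! := by
    have := Nat.add_choose_mul_factorial_mul_factorial k k
    rw [centralBinom, two_mul]
    rw [← this]; ring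
  have h2 : centralBinom (2 * k) * ((2 * k)! * (2 * k)!) = (4 * k)! := by
    have := Nat.add_choose_mul_factorial_mul_factorial (2 * k) (2 * k)
    have e : 2 * k + 2 * k = 4 * k := by ring
    rw [centralBinom, two_mul (2 * k)]
    rw [e] at this ⊢
    rw [← this]; ring
  rw [M_eq, ← h2, ← h1]
  ring

/-- the denominator -/
def D (n : ℕ) : ℕ := 2 * n * (2 * n + 1) * centralBinom n

theorem D_pos {n : ℕ} (hn : n ≠ 0) : 0 < D n := by
  have := centralBinom_pos n
  rw [D]
  positivity

/-- 2-adic valuation of the central binomial coefficient -/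
def c (n : ℕ) : ℕ := padicValNat 2 (centralBinom n)

theorem c_succ (n : ℕ) : c (n + 1) + padicValNat 2 (n + 1) = c n + 1 := by
  have h := succ_mul_centralBinom_succ n
  have h1 := congrArg (padicValNat 2) h
  rw [padicValNat.mul (by omega) (centralBinom_ne_zero _),
    padicValNat.mul (by omega) (centralBinom_ne_zero _),
    padicValNat.mul (by omega) (by omega)] at h1
  have h2 : padicValNat 2 (2 * n + 1) = 0 := padicValNat.eq_zero_of_not_dvd (by omega)
  have h3 : padicValNat 2 2 = 1 := padicValNat.self (by norm_num)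
  rw [h2, h3] at h1
  rw [c, c]
  omega

theorem c_double (n : ℕ) : c (2 * n) = c n := by
  induction n with
  | zero => rfl
  | succ n ih =>
    have h1 := c_succ (2 * n)
    have h2 := c_succ (2 * n + 1)
    have h3 := c_succ n
    have h4 : padicValNat 2 (2 * n + 1) = 0 := padicValNat.eq_zero_of_not_dvd (by omega)
    have h5 : padicValNat 2 (2 * n + 1 + 1) = 1 + padicValNat 2 (n + 1) := by
      have : 2 * n + 1 + 1 = 2 * (n + 1) := by ring
      rw [this, padicValNat.mul (by omega) (by omega), padicValNat.self (by norm_num)]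
    have h6 : 2 * (n + 1) = 2 * n + 1 + 1 := by ring
    rw [h6]
    omega

theorem val_M (k : ℕ) : padicValNat 2 (M k) = 3 * c k := by
  rw [M_eq, padicValNat.mul (centralBinom_ne_zero _) (pow_ne_zero _ (centralBinom_ne_zero _)),
    padicValNat.pow]
  have := c_double k
  rw [c, c] at this
  rw [this, c]
  ring

theorem val_D {n : ℕ} (hn : n ≠ 0) : padicValNat 2 (D n) = 1 + padicValNat 2 n + c n := by
  rw [D, padicValNat.mul (by positivity) (centralBinom_ne_zero _),
    padicValNat.mul (by positivity) (by omega), padicValNat.mul (by omega) hn,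
    padicValNat.self (by norm_num)]
  have h2 : padicValNat 2 (2 * n + 1) = 0 := padicValNat.eq_zero_of_not_dvd (by omega)
  rw [h2, c]
  ring

theorem c_pos {n : ℕ} (hn : n ≠ 0) : 1 ≤ c n := by
  obtain ⟨m, rfl⟩ := Nat.exists_eq_succ_of_ne_zero hn
  have h := two_dvd_centralBinom_succ m
  exact one_le_padicValNat_of_dvd (centralBinom_ne_zero _) h

theorem c_add (n j : ℕ) : c (n + j) ≤ c n + j := by
  induction j with
  | zero => simp
  | succ j ih =>
    have := c_succ (n + j)
    rw [← add_assoc]
    omega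

/-- every term is divisible by the 2-part of the denominator -/
theorem two_le (k j : ℕ) (h : k + j + 1 ≠ 1) :
    padicValNat 2 (D (k + j + 1)) ≤ padicValNat 2 (M k) + 10 * j := by
  rw [val_M, val_D (by omega)]
  have h1 := c_succ (k + j)
  have h2 := c_add k j
  have h3 : 1 ≤ c (k + j) := c_pos (by omega)
  omega

theorem two_dvd {n : ℕ} (hn : 2 ≤ n) : (2 : ℤ) ^ padicValNat 2 (D n) ∣ S n := by
  rw [S]
  refine Finset.dvd_sum (fun k hk => ?_)
  have hk' := Finset.mem_range.1 hk
  obtain ⟨j, rfl⟩ : ∃ j, n = k + j + 1 := ⟨n - 1 - k, by omega⟩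
  have e : k + j + 1 - 1 - k = j := by omega
  rw [e]
  have h1 := two_le k j (by omega)
  have h2 : (2 : ℤ) ^ padicValNat 2 (M k) ∣ (M k : ℤ) := by
    exact_mod_cast (pow_padicValNat_dvd (p := 2) (n := M k))
  have h3 : (2 : ℤ) ^ (10 * j) ∣ (-82944) ^ j := by
    rw [pow_mul]
    exact pow_dvd_pow_of_dvd ⟨-81, by norm_num⟩ j
  refine (pow_dvd_pow _ h1).trans ?_
  rw [pow_add]
  exact mul_dvd_mul (h2.mul_left _) h3

end Pool.Agent.Work.Ram260
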